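import Pool.Agent.H9.WMC.Alg

namespace Pool.WMC

open Pool.H9.WMC

/-- universal property -/
structure EclUni {A : Type} [CommRing A] {n : ℕ} (q : Fin (n + 1) → A) (D : Type) [CommRing D]
    [Algebra A D] where
  y : Fin (n + 1) → D
  h0 : algebraMap A D (q 0) = 0
  h1 : ∑ i, algebraMap A D (q i) * y i = 1
  lift : ∀ (B : Type) [CommRing B] [Algebra A B] (z : Fin (n + 1) → B),
    algebraMap A B (q 0) = 0 → ∑ i, algebraMap A B (q i) * z i = 1 →
    ∃ f : D →ₐ[A] B, ∀ i, f (y i) = z i
  uniq : ∀ (f g : D →ₐ[A] D), (∀ i, f (y i) = g (y i)) → f = g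

theorem ecl_uni {A : Type} [CommRing A] {n : ℕ} {q : Fin (n + 1) → A} {D D' : Type} [CommRing D]
    [Algebra A D] [CommRing D'] [Algebra A D'] (u : EclUni q D) (u' : EclUni q D') :
    Nonempty (D ≃ₐ[A] D') := by
  obtain ⟨f, hf⟩ := u.lift D' u'.y u'.h0 u'.h1
  obtain ⟨g, hg⟩ := u'.lift D u.y u.h0 u.h1
  refine ⟨AlgEquiv.ofAlgHom f g (u'.uniq _ _ fun i => ?_) (u.uniq _ _ fun i => ?_)⟩
  · simp [hf, hg]
  · simp [hf, hg]

theorem ecl_uniS {A : Type} [CommRing A] {n : ℕ} (q : Fin (n + 1) → A) :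
    Nonempty (EclUni q (E q ⧸ Ideal.span {algebraMap A (E q) (q 0)})) := by
  refine ⟨⟨fun i => Ideal.Quotient.mk _ (Ideal.Quotient.mk _ (MvPolynomial.X i)), ?_, ?_, ?_, ?_⟩⟩
  · have : (algebraMap A (E q) (q 0)) ∈ Ideal.span {algebraMap A (E q) (q 0)} :=
      Ideal.mem_span_singleton_self _
    exact Ideal.Quotient.eq_zero_iff_mem.2 this
  · have h : (rel q) ∈ Ideal.span {rel q} := Ideal.mem_span_singleton_self _
    have h2 := Ideal.Quotient.eq_zero_iff_mem.2 h
    have h3 : (∑ i, Ideal.Quotient.mk (Ideal.span {rel q}) (MvPolynomial.C (q i)) *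
      Ideal.Quotient.mk (Ideal.span {rel q}) (MvPolynomial.X i)) = 1 := by
      have h4 : ∀ I : Ideal (MvPolynomial (Fin (n + 1)) A), Ideal.Quotient.mk I (rel q) =
        (∑ i, Ideal.Quotient.mk I (MvPolynomial.C (q i)) *
        Ideal.Quotient.mk I (MvPolynomial.X i)) - 1 := by
        intro I
        rw [rel.eq_def, map_sub, map_sum, map_one]
        simp only [map_mul]
      rw [h4] at h2
      exact sub_eq_zero.1 h2
    have h5 := congrArg (Ideal.Quotient.mk (Ideal.span {algebraMap A (E q) (q 0)})) h3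
    rw [map_sum, map_one] at h5
    simp only [map_mul] at h5
    exact h5
  · intro B _ _ z hz0 hz1
    let f0 : MvPolynomial (Fin (n + 1)) A →ₐ[A] B := MvPolynomial.aeval z
    have hf0 : f0 (rel q) = 0 := by
      rw [rel.eq_def, map_sub, map_sum, map_one]
      simp only [map_mul]
      have : ∀ i, f0 (MvPolynomial.C (q i)) * f0 (MvPolynomial.X i) = algebraMap A B (q i) * z i := by
        intro i
        rw [MvPolynomial.aeval_C, MvPolynomial.aeval_X]
      rw [Finset.sum_congr rfl fun i _ => this i, hz1, sub_self]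
    let f1 : E q →ₐ[A] B := Ideal.Quotient.liftₐ (Ideal.span {rel q}) f0 (by
      intro a ha
      obtain ⟨c, rfl⟩ := Ideal.mem_span_singleton.1 ha
      rw [map_mul, hf0, zero_mul])
    let f2 : (E q ⧸ Ideal.span {algebraMap A (E q) (q 0)}) →ₐ[A] B :=
      Ideal.Quotient.liftₐ (Ideal.span {algebraMap A (E q) (q 0)}) f1 (by
      intro a ha
      obtain ⟨c, rfl⟩ := Ideal.mem_span_singleton.1 ha
      rw [map_mul, AlgHom.commutes, hz0, zero_mul])
    refine ⟨f2, fun i => ?_⟩
    change f0 (MvPolynomial.X i) = z i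
    exact MvPolynomial.aeval_X _ _
  · intro f g hfg
    have h1 : ((f.comp (Ideal.Quotient.mkₐ A _)).comp (Ideal.Quotient.mkₐ A _)) =
      ((g.comp (Ideal.Quotient.mkₐ A (Ideal.span {algebraMap A (E q) (q 0)}))).comp
        (Ideal.Quotient.mkₐ A (Ideal.span {rel q}))) :=
      MvPolynomial.algHom_ext hfg
    apply AlgHom.ext
    intro x
    obtain ⟨x, rfl⟩ := Ideal.Quotient.mk_surjective x
    obtain ⟨x, rfl⟩ := Ideal.Quotient.mk_surjective x
    exact AlgHom.congr_fun h1 x

/-- the family in the quotient -/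
def eclQ {A : Type} [CommRing A] {n : ℕ} (q : Fin (n + 1) → A) : Fin n → A ⧸ Ideal.span {q 0} :=
  fun i : Fin n => Ideal.Quotient.mk (Ideal.span {q 0}) (q i.succ)

theorem ecl_uniT {A : Type} [CommRing A] {n : ℕ} (q : Fin (n + 1) → A) :
    Nonempty (EclUni q (Polynomial (E (eclQ q)))) := by
  have hq0 : algebraMap A (A ⧸ Ideal.span {q 0}) (q 0) = 0 :=
    Ideal.Quotient.eq_zero_iff_mem.2 (Ideal.mem_span_singleton_self _)
  have hC : ∀ a : A, algebraMap A (Polynomial (E (eclQ q))) a =
      Polynomial.C (Ideal.Quotient.mk _ (MvPolynomial.C (algebraMap A (A ⧸ Ideal.span {q 0}) a))) :=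
    fun a => rfl
  have h00 : algebraMap A (Polynomial (E (eclQ q))) (q 0) = 0 := by
    rw [hC, hq0]; simp
  refine ⟨⟨Fin.cons Polynomial.X (fun i => Polynomial.C (Ideal.Quotient.mk _ (MvPolynomial.X i))),
    h00, ?_, ?_, ?_⟩⟩
  · rw [Fin.sum_univ_succ, h00, zero_mul, zero_add]
    have h : (rel (eclQ q)) ∈ Ideal.span {rel (eclQ q)} := Ideal.mem_span_singleton_self _
    have h2 := Ideal.Quotient.eq_zero_iff_mem.2 h
    have h4 : ∀ I : Ideal (MvPolynomial (Fin n) (A ⧸ Ideal.span {q 0})),
        Ideal.Quotient.mk I (rel (eclQ q)) =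
        (∑ i, Ideal.Quotient.mk I (MvPolynomial.C (eclQ q i)) *
        Ideal.Quotient.mk I (MvPolynomial.X i)) - 1 := by
      intro I
      rw [rel.eq_def, map_sub, map_sum, map_one]
      simp only [map_mul]
    rw [h4] at h2
    have h5 := congrArg Polynomial.C (sub_eq_zero.1 h2)
    rw [map_sum, map_one] at h5
    simp only [map_mul] at h5
    exact h5
  · intro B _ _ z hz0 hz1
    let g0 : (A ⧸ Ideal.span {q 0}) →ₐ[A] B := Ideal.Quotient.liftₐ (Ideal.span {q 0})
      (Algebra.ofId A B) (by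
        intro a ha
        obtain ⟨c, rfl⟩ := Ideal.mem_span_singleton.1 ha
        rw [map_mul, Algebra.ofId_apply, hz0, zero_mul])
    have hg0 : ∀ a, g0 (Ideal.Quotient.mk _ a) = algebraMap A B a := fun a => rfl
    let g1 : MvPolynomial (Fin n) (A ⧸ Ideal.span {q 0}) →ₐ[A] B :=
      { MvPolynomial.eval₂Hom (g0 : (A ⧸ Ideal.span {q 0}) →+* B) (fun i : Fin n => z i.succ) with
        commutes' := fun a => by
          change MvPolynomial.eval₂Hom (g0 : (A ⧸ Ideal.span {q 0}) →+* B) (fun i : Fin n => z i.succ)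
            (MvPolynomial.C (Ideal.Quotient.mk _ a)) = _
          rw [MvPolynomial.eval₂Hom_C]
          exact hg0 a }
    have hg1C : ∀ a, g1 (MvPolynomial.C a) = g0 a := fun a => MvPolynomial.eval₂Hom_C _ _ _
    have hg1X : ∀ i, g1 (MvPolynomial.X i) = z i.succ := fun i => MvPolynomial.eval₂Hom_X' _ _ _
    have hg1r : g1 (rel (eclQ q)) = 0 := by
      rw [rel.eq_def, map_sub, map_sum, map_one]
      simp only [map_mul]
      have : ∀ i, g1 (MvPolynomial.C (eclQ q i)) * g1 (MvPolynomial.X i) =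
          algebraMap A B (q i.succ) * z i.succ := by
        intro i
        rw [hg1C, hg1X]
        rfl
      rw [Finset.sum_congr rfl fun i _ => this i]
      rw [Fin.sum_univ_succ, hz0, zero_mul, zero_add] at hz1
      rw [hz1, sub_self]
    let g2 : E (eclQ q) →ₐ[A] B := Ideal.Quotient.liftₐ (Ideal.span {rel (eclQ q)}) g1 (by
      intro a ha
      obtain ⟨c, rfl⟩ := Ideal.mem_span_singleton.1 ha
      rw [map_mul, hg1r, zero_mul])
    let g3 : Polynomial (E (eclQ q)) →ₐ[A] B :=
      { Polynomial.eval₂RingHom (g2 : E (eclQ q) →+* B) (z 0) with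
        commutes' := fun a => by
          change Polynomial.eval₂ (g2 : E (eclQ q) →+* B) (z 0)
            (Polynomial.C (algebraMap A (E (eclQ q)) a)) = _
          rw [Polynomial.eval₂_C]
          exact g2.commutes a }
    have hg3C : ∀ a, g3 (Polynomial.C a) = g2 a := fun a => Polynomial.eval₂_C _ _
    have hg3X : g3 Polynomial.X = z 0 := Polynomial.eval₂_X _ _
    refine ⟨g3, fun i => ?_⟩
    refine Fin.cases ?_ (fun i => ?_) i
    · rw [Fin.cons_zero]; exact hg3X
    · rw [Fin.cons_succ, hg3C]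
      exact hg1X i
  · intro f g hfg
    have hX : f Polynomial.X = g Polynomial.X := by
      have := hfg 0
      rwa [Fin.cons_zero] at this
    have hY : ∀ i, f (Polynomial.C (Ideal.Quotient.mk _ (MvPolynomial.X i))) =
        g (Polynomial.C (Ideal.Quotient.mk _ (MvPolynomial.X i))) := by
      intro i
      have := hfg i.succ
      rwa [Fin.cons_succ] at this
    have hA : ∀ a : A, f (algebraMap A _ a) = g (algebraMap A _ a) := by
      intro a
      rw [f.commutes, g.commutes]
    have h1 : ∀ p : MvPolynomial (Fin n) (A ⧸ Ideal.span {q 0}),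
        f (Polynomial.C (Ideal.Quotient.mk (Ideal.span {rel (eclQ q)}) p)) =
        g (Polynomial.C (Ideal.Quotient.mk (Ideal.span {rel (eclQ q)}) p)) := by
      intro p
      induction p using MvPolynomial.induction_on with
      | C a =>
        obtain ⟨a, rfl⟩ := Ideal.Quotient.mk_surjective a
        exact hA a
      | add p p' hp hp' => simp only [map_add, hp, hp']
      | mul_X p i hp => simp only [map_mul, hp, hY]
    apply AlgHom.ext
    intro x
    induction x using Polynomial.induction_on' with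
    | add p p' hp hp' => rw [map_add, map_add, hp, hp']
    | monomial m a =>
      obtain ⟨a, rfl⟩ := Ideal.Quotient.mk_surjective a
      rw [← Polynomial.C_mul_X_pow_eq_monomial, map_mul, map_mul, map_pow, map_pow, hX, h1]

theorem ecl_thm : ECLStmt := by
  intro k _ A _ _ n q
  obtain ⟨u⟩ := ecl_uniS q
  obtain ⟨u'⟩ := ecl_uniT q
  obtain ⟨e⟩ := ecl_uni u u'
  exact ⟨e.restrictScalars k⟩

end Pool.WMC
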