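import Pool.Agent.H9.WMC.Alg

namespace Pool.WMC

open Pool.H9.WMC

section
variable {k : Type} [Field k] {P : Pred k}

theorem lin_quot (hP : Good P) (A Q : Type) [CommRing A] [Algebra k A] [CommRing Q] [Algebra k Q]
    (h : A) (f : A →ₐ[k] Q) (hf : Function.Surjective f) (hk : RingHom.ker f = Ideal.span {h}) :
    P Q ↔ P (A ⧸ Ideal.span {h}) := by
  have e : (A ⧸ Ideal.span {h}) ≃ₐ[k] Q :=
    (Ideal.quotientEquivAlgOfEq k hk.symm).trans (Ideal.quotientKerAlgEquivOfSurjective hf)
  exact ⟨fun H => hP.iso _ _ e.symm H, fun H => hP.iso _ _ e H⟩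

theorem lin_loc (hP : Good P) (A B : Type) [CommRing A] [Algebra k A] [CommRing B] [Algebra k B]
    [Algebra A B] [IsScalarTower k A B] (h : A) [IsLocalization.Away h B] :
    P B ↔ P (Localization.Away h) := by
  have e : B ≃ₐ[k] Localization.Away h :=
    (IsLocalization.algEquiv (Submonoid.powers h) B (Localization.Away h)).restrictScalars k
  exact ⟨fun H => hP.iso _ _ e H, fun H => hP.iso _ _ e.symm H⟩

theorem lin_mvFin (hP : Good P) (A : Type) [CommRing A] [Algebra k A] (n : ℕ) :
    P A ↔ P (MvPolynomial (Fin n) A) := by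
  induction n with
  | zero =>
    have e : MvPolynomial (Fin 0) A ≃ₐ[k] A :=
      (MvPolynomial.isEmptyAlgEquiv A (Fin 0)).restrictScalars k
    exact ⟨fun H => hP.iso _ _ e.symm H, fun H => hP.iso _ _ e H⟩
  | succ n ih =>
    have e : MvPolynomial (Fin (n + 1)) A ≃ₐ[k] Polynomial (MvPolynomial (Fin n) A) :=
      (MvPolynomial.finSuccEquiv A n).restrictScalars k
    exact ⟨fun H => hP.iso _ _ e.symm (hP.line _ (ih.1 H)),
      fun H => ih.2 (hP.unline _ (hP.iso _ _ e H))⟩

theorem lin_mv (hP : Good P) (A : Type) [CommRing A] [Algebra k A] (ι : Type) [Finite ι] :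
    P A ↔ P (MvPolynomial ι A) := by
  have e : MvPolynomial ι A ≃ₐ[k] MvPolynomial (Fin (Nat.card ι)) A :=
    (MvPolynomial.renameEquiv A (Finite.equivFin ι)).restrictScalars k
  exact (lin_mvFin hP A _).trans ⟨fun H => hP.iso _ _ e.symm H, fun H => hP.iso _ _ e H⟩

end

theorem lin_thm : LINStmt := by
  intro k _ P hP
  have hopn' : ∀ (A B Q : Type) [CommRing A] [Algebra k A] [CommRing B] [Algebra k B]
    [CommRing Q] [Algebra k Q] [Algebra A B] [IsScalarTower k A B] (h : A)
    [IsLocalization.Away h B]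
    (f : A →ₐ[k] Q), Function.Surjective f → RingHom.ker f = Ideal.span {h} →
    P A → P Q → P B := by
    intro A B Q _ _ _ _ _ _ _ _ h _ f hf hk hA hQ
    exact (lin_loc hP A B h).2 (hP.opn A h hA ((lin_quot hP A Q h f hf hk).1 hQ))
  refine ⟨?_, hopn', ?_, ?_, ?_, ?_, ?_⟩
  · intro A B Q _ _ _ _ _ _ _ _ h _ f hf hk hA hB
    exact (lin_quot hP A Q h f hf hk).2 (hP.closed A h hA ((lin_loc hP A B h).1 hB))
  · intro A B Q _ _ _ _ _ _ _ _ h _ f hft hf hk hQ hB
    exact hP.total A h hft ((lin_quot hP A Q h f hf hk).1 hQ) ((lin_loc hP A B h).1 hB)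
  · intro A _ _ ι _ hA
    exact (lin_mv hP A ι).1 hA
  · intro A _ _ ι _ hA
    exact (lin_mv hP A ι).2 hA
  · intro A _ _ hA
    refine hopn' (Polynomial A) _ A Polynomial.X ((Polynomial.aeval (0 : A)).restrictScalars k)
      ?_ ?_ (hP.line A hA) hA
    · intro a
      exact ⟨Polynomial.C a, by simp⟩
    · ext p
      rw [RingHom.mem_ker, Ideal.mem_span_singleton, Polynomial.X_dvd_iff]
      simp [Polynomial.coeff_zero_eq_aeval_zero]
  · intro A B _ _ _ _ hA hB
    have h0 : P (A ⧸ Ideal.span {(0 : A)}) :=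
      (lin_quot hP A A 0 (AlgHom.id k A) Function.surjective_id (by
        ext x; simp [RingHom.mem_ker])).1 hA
    have h1 := hP.opn A 0 hA h0
    have hsub : Subsingleton (Localization.Away (0 : A)) :=
      IsLocalization.subsingleton (M := Submonoid.powers (0 : A)) (Submonoid.mem_powers 0)
    let f : Localization.Away (0 : A) →ₐ[k] B :=
      { toFun := fun _ => 0
        map_one' := Subsingleton.elim _ _
        map_mul' := fun _ _ => Subsingleton.elim _ _
        map_zero' := rfl
        map_add' := fun _ _ => Subsingleton.elim _ _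
        commutes' := fun _ => Subsingleton.elim _ _ }
    exact hP.iso _ _ (AlgEquiv.ofBijective f
      ⟨fun _ _ _ => Subsingleton.elim _ _, fun b => ⟨0, Subsingleton.elim _ _⟩⟩) h1

end Pool.WMC
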